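import Mathlib

/-!
# Perfect codes in generalized Fibonacci cubes (MP_87e4a0_co, Q1)

Every perfect code of the generalized Fibonacci cube `Γ_n(1^s)` (`n ≥ 3`, `s ≥ 2`) is a perfect
code of the hypercube `Q_n`, and `n + 1` is a power of two; moreover `n < 2 s`.
-/

namespace Pool.Agent.Results.MP_87e4a0_co.FibonacciCubeCodes

open Finset

/-- The binary string `x` of length `n` contains `s` consecutive ones. -/
def Run {n : ℕ} (s : ℕ) (x : Fin n → Bool) : Prop :=
  ∃ a : ℕ, a + s ≤ n ∧ ∀ i : Fin n, a ≤ i.1 → i.1 < a + s → x i = true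

/-- The hypercube: strings are adjacent when they differ in exactly one position. -/
def Q (n : ℕ) : SimpleGraph (Fin n → Bool) where
  Adj x y := hammingDist x y = 1
  symm := ⟨fun x y h => by rw [hammingDist_comm]; exact h⟩
  loopless := ⟨fun x h => by rw [hammingDist_self] at h; omega⟩

/-- The generalized Fibonacci cube `Γ_n(1^s)`. -/
def Gam (n s : ℕ) : SimpleGraph {x : Fin n → Bool | ¬ Run s x} :=
  (Q n).induce {x : Fin n → Bool | ¬ Run s x}

/-- `C` is a perfect code of `G`: every vertex lies in `N[c]` for exactly one `c ∈ C`. -/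
def IsPerfectCode {V : Type*} (G : SimpleGraph V) (C : Set V) : Prop :=
  ∀ v : V, ∃! c : V, c ∈ C ∧ (v = c ∨ G.Adj c v)

/-! ### Flipping a bit -/

/-- flip the bit at position `i` -/
def flp {n : ℕ} (x : Fin n → Bool) (i : Fin n) : Fin n → Bool := Function.update x i (!x i)

theorem flp_same {n : ℕ} (x : Fin n → Bool) (i : Fin n) : flp x i i = !x i := by
  simp [flp]

theorem flp_ne {n : ℕ} (x : Fin n → Bool) {i j : Fin n} (h : j ≠ i) : flp x i j = x j := by
  simp [flp, Function.update_of_ne h]

theorem flp_flp {n : ℕ} (x : Fin n → Bool) (i : Fin n) : flp (flp x i) i = x := by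
  funext j
  by_cases h : j = i
  · subst h; rw [flp_same, flp_same, Bool.not_not]
  · rw [flp_ne _ h, flp_ne _ h]

theorem flp_comm {n : ℕ} (x : Fin n → Bool) (i j : Fin n) :
    flp (flp x i) j = flp (flp x j) i := by
  funext k
  by_cases hi : k = i
  · by_cases hj : k = j
    · subst hi; subst hj; rfl
    · subst hi
      rw [flp_ne _ hj, flp_same, flp_same, flp_ne _ hj]
  · by_cases hj : k = j
    · subst hj
      rw [flp_same, flp_ne _ hi, flp_ne _ hi, flp_same]
    · rw [flp_ne _ hj, flp_ne _ hi, flp_ne _ hi, flp_ne _ hj]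

theorem flp3 {n : ℕ} (x : Fin n → Bool) (i j : Fin n) :
    flp (flp (flp x i) j) i = flp x j := by
  rw [flp_comm x i j, flp_flp]

theorem flp_ne_self {n : ℕ} (x : Fin n → Bool) (i : Fin n) : flp x i ≠ x := by
  intro h
  have h1 := congrFun h i
  rw [flp_same] at h1
  cases hx : x i <;> simp [hx] at h1

theorem flp_inj {n : ℕ} (x : Fin n → Bool) {i j : Fin n} (h : flp x i = flp x j) : i = j := by
  by_contra hne
  have h1 := congrFun h i
  rw [flp_same, flp_ne _ hne] at h1
  cases hx : x i <;> simp [hx] at h1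

theorem hammingDist_flp {n : ℕ} (x : Fin n → Bool) (i : Fin n) : hammingDist x (flp x i) = 1 := by
  unfold hammingDist
  rw [Finset.card_eq_one]
  refine ⟨i, ?_⟩
  ext j
  simp only [mem_filter, mem_univ, true_and, mem_singleton]
  constructor
  · intro h
    by_contra hne
    rw [flp_ne _ hne] at h
    exact h rfl
  · intro h
    subst h
    rw [flp_same]
    cases x j <;> simp

theorem adj_iff {n : ℕ} (x y : Fin n → Bool) : (Q n).Adj x y ↔ ∃ i, y = flp x i := by
  constructor
  · intro h
    have h1 : hammingDist x y = 1 := h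
    unfold hammingDist at h1
    rw [Finset.card_eq_one] at h1
    obtain ⟨i, hi⟩ := h1
    refine ⟨i, ?_⟩
    funext j
    have hj : j ∈ ({j | x j ≠ y j} : Finset (Fin n)) ↔ j ∈ ({i} : Finset (Fin n)) := by rw [hi]
    simp only [mem_filter, mem_univ, true_and, mem_singleton] at hj
    by_cases hji : j = i
    · subst hji
      rw [flp_same]
      have := hj.2 rfl
      cases hx : x j <;> cases hy : y j <;> simp_all
    · rw [flp_ne _ hji]
      by_contra hne
      exact hji (hj.1 (fun h => hne h.symm))
  · rintro ⟨i, rfl⟩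
    exact hammingDist_flp x i

/-- `c` is in the closed neighbourhood of `x` -/
def Near {n : ℕ} (c x : Fin n → Bool) : Prop := c = x ∨ ∃ i, c = flp x i

/-! ### Down-closedness -/

theorem run_mono {n s : ℕ} {x y : Fin n → Bool} (h : ∀ i, y i = true → x i = true)
    (hy : Run s y) : Run s x := by
  obtain ⟨a, ha, hr⟩ := hy
  exact ⟨a, ha, fun i h1 h2 => h i (hr i h1 h2)⟩

theorem not_run_flp {n s : ℕ} {x : Fin n → Bool} {i : Fin n} (hi : x i = true)
    (hx : ¬ Run s x) : ¬ Run s (flp x i) := by
  intro h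
  apply hx
  refine run_mono ?_ h
  intro j hj
  by_cases hji : j = i
  · subst hji; exact hi
  · rw [flp_ne _ hji] at hj; exact hj

/-! ### The setting -/

/-- the data of a perfect code of `Γ_n(1^s)`, as a set of strings -/
structure Code (n s : ℕ) (C : Set (Fin n → Bool)) : Prop where
  sub : ∀ c ∈ C, ¬ Run s c
  cov : ∀ x, ¬ Run s x → ∃ c ∈ C, Near c x
  uniq : ∀ x, ¬ Run s x → ∀ c ∈ C, ∀ c' ∈ C, Near c x → Near c' x → c = c'

variable {n s : ℕ} {C : Set (Fin n → Bool)}

theorem no_adj (H : Code n s C) {c : Fin n → Bool} (hc : c ∈ C) (i : Fin n) :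
    flp c i ∉ C := by
  intro h
  have := H.uniq c (H.sub c hc) c hc _ h (Or.inl rfl) (Or.inr ⟨i, rfl⟩)
  exact flp_ne_self c i this.symm

theorem no_two (H : Code n s C) {c : Fin n → Bool} (hc : c ∈ C) {i j : Fin n} (hij : i ≠ j) :
    flp (flp c i) j ∉ C := by
  intro h
  have key : ∀ m, (m = flp c i ∨ m = flp c j) → ¬ Run s m → False := by
    intro m hm hr
    have h1 : Near c m := by
      rcases hm with rfl | rfl
      · exact Or.inr ⟨i, (flp_flp c i).symm⟩
      · exact Or.inr ⟨j, (flp_flp c j).symm⟩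
    have h2 : Near (flp (flp c i) j) m := by
      rcases hm with rfl | rfl
      · exact Or.inr ⟨j, rfl⟩
      · exact Or.inr ⟨i, flp_comm c i j⟩
    have h3 := H.uniq m hr c hc _ h h1 h2
    have h4 := congrFun h3 i
    rw [flp_ne _ hij, flp_same] at h4
    cases hx : c i <;> simp [hx] at h4
  by_cases hi : c i = true
  · exact key _ (Or.inl rfl) (not_run_flp hi (H.sub c hc))
  · by_cases hj : c j = true
    · exact key _ (Or.inr rfl) (not_run_flp hj (H.sub c hc))
    · have h5 : flp (flp (flp c i) j) j = flp c i := flp_flp _ _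
      refine key (flp c i) (Or.inl rfl) ?_
      rw [← h5]
      apply not_run_flp _ (H.sub _ h)
      rw [flp_same, flp_ne _ hij.symm]
      simp only [Bool.not_eq_true] at hj
      simp [hj]

/-- uniqueness holds at every vertex of the hypercube -/
theorem uniqG (H : Code n s C) (x c c' : Fin n → Bool) (hc : c ∈ C) (hc' : c' ∈ C)
    (h : Near c x) (h' : Near c' x) : c = c' := by
  rcases h with h | ⟨i, h⟩ <;> rcases h' with h' | ⟨j, h'⟩
  · rw [h, h']
  · exfalso
    subst h
    subst h'
    exact no_adj H hc j hc'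
  · exfalso
    subst h
    subst h'
    exact no_adj H hc' i hc
  · by_cases hij : i = j
    · subst hij; rw [h, h']
    · exfalso
      apply no_two H hc hij
      have : flp (flp c i) j = c' := by rw [h, h', flp_flp]
      rw [this]
      exact hc'

/-- `x` is covered by a codeword -/
def Cov (C : Set (Fin n → Bool)) (x : Fin n → Bool) : Prop := ∃ c ∈ C, Near c x

open Classical in
/-- the parity lemma -/
theorem parity (H : Code n s C) {y : Fin n → Bool} (hy : y ∉ C) {k : Fin n}
    (hk : flp y k ∈ C) :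
    Even (univ.filter fun i : Fin n => i ≠ k ∧ Cov C (flp y i)).card := by
  -- the partner
  have part : ∀ i : Fin n, i ≠ k → Cov C (flp y i) →
      ∃ j : Fin n, j ≠ k ∧ j ≠ i ∧ flp (flp y i) j ∈ C := by
    intro i hik ⟨c, hc, hn⟩
    rcases hn with rfl | ⟨j, hj⟩
    · exfalso
      apply no_two H hk (i := k) (j := i) (Ne.symm hik)
      rw [flp_flp]
      exact hc
    · refine ⟨j, ?_, ?_, hj ▸ hc⟩
      · rintro rfl
        apply no_adj H hk i
        rw [flp_comm, ← hj]
        exact hc
      · rintro rfl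
        rw [flp_flp] at hj
        exact hy (hj ▸ hc)
  have uni : ∀ i j j' : Fin n, flp (flp y i) j ∈ C → flp (flp y i) j' ∈ C → j = j' := by
    intro i j j' h h'
    have := uniqG H (flp y i) _ _ h h' (Or.inr ⟨j, rfl⟩) (Or.inr ⟨j', rfl⟩)
    exact flp_inj _ this
  choose! g hg1 hg2 hg3 using part
  set W := univ.filter fun i : Fin n => i ≠ k ∧ Cov C (flp y i) with hW
  have hmem : ∀ i, i ∈ W ↔ i ≠ k ∧ Cov C (flp y i) := by
    intro i; rw [hW]; simp
  have hsum : ∑ _i ∈ W, (1 : ZMod 2) = 0 := by
    refine Finset.sum_involution (fun i _ => g i) ?_ ?_ ?_ ?_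
    · intro i hi; decide
    · intro i hi _
      rw [hmem] at hi
      exact hg2 i hi.1 hi.2
    · intro i hi
      rw [hmem] at hi
      rw [hmem]
      refine ⟨hg1 i hi.1 hi.2, ⟨_, hg3 i hi.1 hi.2, Or.inr ⟨i, ?_⟩⟩⟩
      exact flp_comm _ _ _
    · intro i hi
      rw [hmem] at hi
      have h1 := hg3 i hi.1 hi.2
      have h2 : Cov C (flp y (g i)) := ⟨_, h1, Or.inr ⟨i, flp_comm _ _ _⟩⟩
      have h3 := hg3 (g i) (hg1 i hi.1 hi.2) h2
      rw [flp_comm] at h1
      exact uni (g i) _ _ h3 h1
  rw [Finset.sum_const, nsmul_eq_mul, mul_one] at hsum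
  exact (ZMod.natCast_eq_zero_iff_even).1 hsum

/-- `n` even: a non-codeword of `Γ` has an uncovered neighbour -/
theorem even_case (H : Code n s C) (hn : Even n) {y : Fin n → Bool} (hyr : ¬ Run s y)
    (hall : ∀ i, Cov C (flp y i)) : y ∈ C := by
  classical
  by_contra hy
  obtain ⟨c, hc, hcn⟩ := H.cov y hyr
  rcases hcn with rfl | ⟨k, rfl⟩
  · exact hy hc
  · have hp := parity H hy hc
    have he : (univ.filter fun i : Fin n => i ≠ k ∧ Cov C (flp y i)) = univ.erase k := by
      ext i
      simp only [mem_filter, mem_univ, true_and, mem_erase, and_true]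
      exact ⟨fun h => h.1, fun h => ⟨h, hall i⟩⟩
    rw [he, card_erase_of_mem (mem_univ _), card_univ, Fintype.card_fin] at hp
    have : 0 < n := k.pos
    obtain ⟨a, ha⟩ := hp
    obtain ⟨b, hb⟩ := hn
    omega

/-- `n` odd: if all neighbours but one of a vertex of `Γ` are covered, so is the last one -/
theorem odd_case (H : Code n s C) (hn : Odd n) {y : Fin n → Bool} (hyr : ¬ Run s y) (j : Fin n)
    (hall : ∀ i, i ≠ j → Cov C (flp y i)) : Cov C (flp y j) := by
  classical
  by_contra hj
  obtain ⟨c, hc, hcn⟩ := H.cov y hyr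
  rcases hcn with rfl | ⟨k, rfl⟩
  · exact hj ⟨c, hc, Or.inr ⟨j, (flp_flp c j).symm⟩⟩
  · by_cases hy : y ∈ C
    · exact hj ⟨y, hy, Or.inr ⟨j, (flp_flp y j).symm⟩⟩
    have hjk : j ≠ k := by
      rintro rfl
      exact hj ⟨_, hc, Or.inl rfl⟩
    have hp := parity H hy hc
    have he : (univ.filter fun i : Fin n => i ≠ k ∧ Cov C (flp y i)) =
        (univ.erase k).erase j := by
      ext i
      simp only [mem_filter, mem_univ, true_and, mem_erase, and_true]
      constructor
      · rintro ⟨h1, h2⟩
        refine ⟨?_, h1⟩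
        rintro rfl
        exact hj h2
      · rintro ⟨h1, h2⟩
        exact ⟨h2, hall i h1⟩
    rw [he, card_erase_of_mem (mem_erase.2 ⟨hjk, mem_univ _⟩), card_erase_of_mem (mem_univ _),
      card_univ, Fintype.card_fin] at hp
    obtain ⟨a, ha⟩ := hp
    obtain ⟨b, hb⟩ := hn
    have h1 : 1 ≤ b := by
      by_contra hb0
      have : n = 1 := by omega
      subst this
      exact hjk (Subsingleton.elim _ _)
    omega

theorem cov_of (H : Code n s C) {x : Fin n → Bool} (h : ¬ Run s x) : Cov C x := H.cov x h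

/-! ### A criterion for `¬ Run` -/

/-- no two consecutive ones -/
theorem not_run_of_pair (hs : 2 ≤ s) {x : Fin n → Bool}
    (h : ∀ a : ℕ, ∀ h1 : a + 1 < n, ¬ (x ⟨a, by omega⟩ = true ∧ x ⟨a + 1, h1⟩ = true)) :
    ¬ Run s x := by
  rintro ⟨a, ha, hr⟩
  exact h a (by omega) ⟨hr _ (le_refl _) (by show a < a + s; omega),
    hr _ (by show a ≤ a + 1; omega) (by show a + 1 < a + s; omega)⟩

/-- no three consecutive ones -/
theorem not_run_of_triple (hs : 3 ≤ s) {x : Fin n → Bool}
    (h : ∀ a : ℕ, ∀ h1 : a + 2 < n, ¬ (x ⟨a, by omega⟩ = true ∧ x ⟨a + 1, by omega⟩ = true ∧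
      x ⟨a + 2, h1⟩ = true)) :
    ¬ Run s x := by
  rintro ⟨a, ha, hr⟩
  exact h a (by omega) ⟨hr _ (le_refl _) (by show a < a + s; omega),
    hr _ (by show a ≤ a + 1; omega) (by show a + 1 < a + s; omega),
    hr _ (by show a ≤ a + 2; omega) (by show a + 2 < a + s; omega)⟩

/-- the zero string -/
def zr (n : ℕ) : Fin n → Bool := fun _ => false

theorem flp_zr (i j : Fin n) : flp (zr n) i j = true ↔ j = i := by
  by_cases h : j = i
  · subst h; rw [flp_same]; simp [zr]
  · rw [flp_ne _ h]; simp [zr, h]

theorem flp_flp_zr {i k : Fin n} (hik : i ≠ k) (j : Fin n) :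
    flp (flp (zr n) i) k j = true ↔ j = i ∨ j = k := by
  by_cases h : j = k
  · subst h
    rw [flp_same, flp_ne _ hik.symm]; simp [zr]
  · rw [flp_ne _ h, flp_zr]
    simp [h]

/-! ### `n` even is impossible -/

theorem zr_mem (H : Code n s C) (hs : 2 ≤ s) (hn : Even n) : zr n ∈ C := by
  apply even_case H hn
  · apply not_run_of_pair hs
    intro a h1 h
    simp [zr] at h
  · intro i
    apply cov_of H
    apply not_run_of_pair hs
    rintro a h1 ⟨h2, h3⟩
    rw [flp_zr] at h2 h3
    rw [← h3] at h2
    simp at h2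

theorem even_false3 (H : Code n s C) (hs : 3 ≤ s) (hn : Even n) (h0 : 0 < n) : False := by
  have h1 := zr_mem H (by omega) hn
  have h2 : flp (zr n) ⟨0, h0⟩ ∈ C := by
    apply even_case H hn
    · apply not_run_of_pair (by omega)
      rintro a h1 ⟨h2, h3⟩
      rw [flp_zr] at h2 h3
      rw [← h3] at h2
      simp at h2
    · intro i
      by_cases hi : (⟨0, h0⟩ : Fin n) = i
      · subst hi
        rw [flp_flp]
        exact ⟨_, h1, Or.inl rfl⟩
      · apply cov_of H
        apply not_run_of_triple hs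
        rintro a h1 ⟨h2, h3, h4⟩
        rw [flp_flp_zr hi] at h2 h3 h4
        simp only [Fin.ext_iff] at h2 h3 h4
        omega
  exact no_adj H h1 _ h2

theorem even_false2 (H : Code n 2 C) (hn : Even n) (h3 : 3 ≤ n) : False := by
  classical
  have h0 := zr_mem H (le_refl 2) hn
  -- `{a, a+1}` is uncovered
  have hun : ∀ a : ℕ, ∀ ha : a + 1 < n,
      ¬ Cov C (flp (flp (zr n) ⟨a, by omega⟩) ⟨a + 1, ha⟩) := by
    rintro a ha ⟨c, hc, hcn⟩
    have hne : (⟨a, by omega⟩ : Fin n) ≠ ⟨a + 1, ha⟩ := by
      simp [Fin.ext_iff]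
    have hr : ∀ x : Fin n → Bool, x ⟨a, by omega⟩ = true → x ⟨a + 1, ha⟩ = true → Run 2 x := by
      intro x hx1 hx2
      refine ⟨a, by omega, ?_⟩
      intro i hi1 hi2
      have : i = ⟨a, by omega⟩ ∨ i = ⟨a + 1, ha⟩ := by
        simp only [Fin.ext_iff]; omega
      rcases this with h | h
      · rw [h]; exact hx1
      · rw [h]; exact hx2
    rcases hcn with hcn | ⟨j, hj⟩
    · apply H.sub c hc
      apply hr
      · rw [hcn, flp_flp_zr hne]; left; rfl
      · rw [hcn, flp_flp_zr hne]; right; rfl
    · by_cases hj1 : j = ⟨a, by omega⟩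
      · rw [hj1, flp3] at hj
        exact no_adj H h0 _ (hj ▸ hc)
      · by_cases hj2 : j = ⟨a + 1, ha⟩
        · rw [hj2, flp_flp] at hj
          exact no_adj H h0 _ (hj ▸ hc)
        · apply H.sub c hc
          apply hr
          · rw [hj, flp_ne _ (Ne.symm hj1), flp_flp_zr hne]; left; rfl
          · rw [hj, flp_ne _ (Ne.symm hj2), flp_flp_zr hne]; right; rfl
  set y : Fin n → Bool := flp (zr n) ⟨1, by omega⟩ with hy
  have hyC : y ∉ C := no_adj H h0 _
  have hk : flp y ⟨1, by omega⟩ ∈ C := by rw [hy, flp_flp]; exact h0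
  have hp := parity H hyC hk
  have he : (univ.filter fun i : Fin n => i ≠ ⟨1, by omega⟩ ∧ Cov C (flp y i)) =
      ((univ.erase (⟨1, by omega⟩ : Fin n)).erase ⟨0, by omega⟩).erase ⟨2, by omega⟩ := by
    ext i
    simp only [mem_filter, mem_univ, true_and, mem_erase, and_true]
    constructor
    · rintro ⟨h1, h2⟩
      refine ⟨?_, ?_, h1⟩
      · rintro rfl
        exact hun 1 (by omega) h2
      · rintro rfl
        rw [hy, flp_comm] at h2
        exact hun 0 (by omega) h2
    · rintro ⟨h1, h2, h4⟩
      refine ⟨h4, ?_⟩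
      apply cov_of H
      apply not_run_of_pair (le_refl 2)
      rintro a ha ⟨h5, h6⟩
      rw [hy, flp_flp_zr (Ne.symm h4)] at h5 h6
      simp only [Fin.ext_iff, ne_eq] at h1 h2 h4 h5 h6
      omega
  rw [he, card_erase_of_mem, card_erase_of_mem, card_erase_of_mem (mem_univ _),
      card_univ, Fintype.card_fin] at hp
  · obtain ⟨a, ha⟩ := hp
    obtain ⟨b, hb⟩ := hn
    omega
  · simp [Fin.ext_iff]
  · simp [Fin.ext_iff]

/-! ### `n` odd, `n ≥ 2s` is impossible -/

theorem odd_false3 (H : Code n s C) (hs : 3 ≤ s) (hn : Odd n) (h2s : 2 * s ≤ n) : False := by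
  classical
  -- the string `1^s 0^{n-s}`
  set b : Fin n → Bool := fun i => decide (i.1 < s) with hb
  have hbt : ∀ i : Fin n, b i = true ↔ i.1 < s := by intro i; simp [hb]
  set S := {z : Fin n // s ≤ z.1} with hS
  set X : Option S → Fin n → Bool := fun w => w.elim b (fun z => flp b z.1) with hX
  have hXsmall : ∀ w : Option S, ∀ i : Fin n, i.1 < s → X w i = true := by
    intro w i hi
    cases w with
    | none => exact (hbt i).2 hi
    | some z =>
      show flp b z.1 i = true
      have : i ≠ z.1 := by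
        intro h
        have := z.2
        rw [← h] at this
        omega
      rw [flp_ne _ this]
      exact (hbt i).2 hi
  -- there is at most one large one in `X w`
  have hXlarge : ∀ w : Option S, ∃ t : ℕ, ∀ i : Fin n, s ≤ i.1 → X w i = true → i.1 = t := by
    intro w
    cases w with
    | none =>
      refine ⟨0, ?_⟩
      intro i hi h
      have : b i = true := h
      rw [hbt] at this
      omega
    | some z =>
      refine ⟨z.1.1, ?_⟩
      intro i hi h
      have h' : flp b z.1 i = true := h
      by_contra hne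
      rw [flp_ne _ (fun h => hne (by rw [h])), hbt] at h'
      omega
  have hm : s - 1 < n := by omega
  have hXrun : ∀ w (x : Fin n → Bool), (∀ i : Fin n, i.1 < s → x i = X w i) → Run s x := by
    intro w x hx
    refine ⟨0, by omega, ?_⟩
    intro i _ hi
    rw [hx i (by omega)]
    exact hXsmall w i (by omega)
  have hcov : ∀ w : Option S, Cov C (X w) := by
    intro w
    obtain ⟨t, ht⟩ := hXlarge w
    have e : X w = flp (flp (X w) ⟨s - 1, hm⟩) ⟨s - 1, hm⟩ := (flp_flp _ _).symm
    have hy0 : flp (X w) ⟨s - 1, hm⟩ ⟨s - 1, hm⟩ = false := by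
      rw [flp_same, hXsmall w _ (by show s - 1 < s; omega)]; rfl
    have hyl : ∀ i : Fin n, s ≤ i.1 → flp (X w) ⟨s - 1, hm⟩ i = true → i.1 = t := by
      intro i hi h
      rw [flp_ne _ (by intro h; rw [h] at hi; simp at hi; omega)] at h
      exact ht i hi h
    rw [e]
    -- a string vanishing at `s-1` with at most two large ones has no run
    have crit : ∀ (x : Fin n → Bool), x ⟨s - 1, hm⟩ = false →
        (∃ t t' : ℕ, ∀ i : Fin n, s ≤ i.1 → x i = true → i.1 = t ∨ i.1 = t') → ¬ Run s x := by
      rintro x hx0 ⟨t, t', htt⟩ ⟨a, ha, hr⟩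
      by_cases hac : a ≤ s - 1
      · have := hr ⟨s - 1, hm⟩ hac (by show s - 1 < a + s; omega)
        rw [hx0] at this
        exact absurd this (by simp)
      · have h1 := htt ⟨a, by omega⟩ (by show s ≤ a; omega)
          (hr _ (le_refl _) (by show a < a + s; omega))
        have h2 := htt ⟨a + 1, by omega⟩ (by show s ≤ a + 1; omega)
          (hr _ (by show a ≤ a + 1; omega) (by show a + 1 < a + s; omega))
        have h3 := htt ⟨a + 2, by omega⟩ (by show s ≤ a + 2; omega)
          (hr _ (by show a ≤ a + 2; omega) (by show a + 2 < a + s; omega))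
        simp only at h1 h2 h3
        omega
    apply odd_case H hn
    · apply crit _ hy0
      exact ⟨t, t, fun i hi h => Or.inl (hyl i hi h)⟩
    · intro i hi
      apply cov_of H
      apply crit
      · rw [flp_ne _ (Ne.symm hi)]
        exact hy0
      · refine ⟨t, i.1, ?_⟩
        intro k hk h
        by_cases hki : k = i
        · right; rw [hki]
        · left
          rw [flp_ne _ hki] at h
          exact hyl k hk h
  -- the covering codeword turns off a bit of the initial run
  have hcw : ∀ w : Option S, ∃ j : Fin s, flp (X w) ⟨j.1, by omega⟩ ∈ C := by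
    intro w
    obtain ⟨c, hc, hcn⟩ := hcov w
    rcases hcn with rfl | ⟨j, rfl⟩
    · exfalso
      exact H.sub _ hc (hXrun w _ (fun i _ => rfl))
    · by_cases hj : j.1 < s
      · exact ⟨⟨j.1, hj⟩, hc⟩
      · exfalso
        apply H.sub _ hc
        apply hXrun w
        intro i hi
        rw [flp_ne]
        intro h
        rw [h] at hi
        exact hj hi
  choose g hg using hcw
  have hcard : Fintype.card (Fin s) < Fintype.card (Option S) := by
    rw [Fintype.card_fin, Fintype.card_option]
    have : Fintype.card S = n - s := by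
      have e2 : Fintype.card S = Fintype.card (Fin (n - s)) := by
        refine Fintype.card_congr
          { toFun := fun z => ⟨z.1.1 - s, by have := z.2; have := z.1.2; omega⟩
            invFun := fun k => ⟨⟨k.1 + s, by omega⟩, by show s ≤ k.1 + s; omega⟩
            left_inv := ?_
            right_inv := ?_ }
        · intro z
          have := z.2
          apply Subtype.ext
          apply Fin.ext
          show z.1.1 - s + s = z.1.1
          omega
        · intro k
          apply Fin.ext
          show k.1 + s - s = k.1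
          omega
      rw [e2, Fintype.card_fin]
    omega
  obtain ⟨w, w', hne, hgg⟩ := Fintype.exists_ne_map_eq_of_card_lt g hcard
  have hw := hg w
  have hw' := hg w'
  rw [← hgg] at hw'
  set jj : Fin n := ⟨(g w).1, by omega⟩ with hjj
  have hX0 : X none = b := rfl
  have hX1 : ∀ z, X (some z) = flp b z.1 := fun z => rfl
  cases w with
  | none =>
    cases w' with
    | none => exact hne rfl
    | some z' =>
      rw [hX0] at hw
      rw [hX1, flp_comm] at hw'
      exact no_adj H hw _ hw'
  | some z =>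
    cases w' with
    | none =>
      rw [hX0] at hw'
      rw [hX1, flp_comm] at hw
      exact no_adj H hw' _ hw
    | some z' =>
      rw [hX1, flp_comm] at hw
      rw [hX1, flp_comm] at hw'
      have hzz : z.1 ≠ z'.1 := by
        intro h
        exact hne (by rw [Subtype.ext h])
      apply no_two H hw hzz
      rw [flp_flp]
      exact hw'

theorem odd_false2 (H : Code n 2 C) (hn : Odd n) (h5 : 5 ≤ n) : False := by
  -- `{a, a+1}` is covered
  have hcv : ∀ a : ℕ, ∀ ha : a + 1 < n,
      Cov C (flp (flp (zr n) ⟨a, by omega⟩) ⟨a + 1, ha⟩) := by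
    intro a
    induction a with
    | zero =>
      intro ha
      apply odd_case H hn
      · apply not_run_of_pair (le_refl 2)
        rintro a h1 ⟨h2, h3⟩
        rw [flp_zr] at h2 h3
        rw [← h3] at h2
        simp at h2
      · intro i hi
        apply cov_of H
        by_cases hi0 : (⟨0, by omega⟩ : Fin n) = i
        · subst hi0
          rw [flp_flp]
          apply not_run_of_pair (le_refl 2)
          rintro a h1 ⟨h2, h3⟩
          simp [zr] at h2
        · apply not_run_of_pair (le_refl 2)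
          rintro a h1 ⟨h2, h3⟩
          rw [flp_flp_zr hi0] at h2 h3
          simp only [Fin.ext_iff, ne_eq] at hi hi0 h2 h3
          omega
    | succ a ih =>
      intro ha
      have ih' := ih (by omega)
      apply odd_case H hn
      · apply not_run_of_pair (le_refl 2)
        rintro a h1 ⟨h2, h3⟩
        rw [flp_zr] at h2 h3
        rw [← h3] at h2
        simp at h2
      · intro i hi
        by_cases hia : i = ⟨a, by omega⟩
        · subst hia
          rw [flp_comm]
          exact ih'
        · apply cov_of H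
          by_cases hi0 : (⟨a + 1, by omega⟩ : Fin n) = i
          · subst hi0
            rw [flp_flp]
            apply not_run_of_pair (le_refl 2)
            rintro a h1 ⟨h2, h3⟩
            simp [zr] at h2
          · apply not_run_of_pair (le_refl 2)
            rintro b h1 ⟨h2, h3⟩
            rw [flp_flp_zr hi0] at h2 h3
            simp only [Fin.ext_iff, ne_eq] at hi hi0 hia h2 h3
            omega
  -- the codeword covering it is a unit vector
  have hun : ∀ a : ℕ, ∀ ha : a + 1 < n,
      flp (zr n) ⟨a, by omega⟩ ∈ C ∨ flp (zr n) ⟨a + 1, ha⟩ ∈ C := by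
    intro a ha
    obtain ⟨c, hc, hcn⟩ := hcv a ha
    have hne : (⟨a, by omega⟩ : Fin n) ≠ ⟨a + 1, ha⟩ := by
      simp [Fin.ext_iff]
    have hr : ∀ x : Fin n → Bool, x ⟨a, by omega⟩ = true → x ⟨a + 1, ha⟩ = true → Run 2 x := by
      intro x hx1 hx2
      refine ⟨a, by omega, ?_⟩
      intro i hi1 hi2
      have : i = ⟨a, by omega⟩ ∨ i = ⟨a + 1, ha⟩ := by
        simp only [Fin.ext_iff]; omega
      rcases this with h | h
      · rw [h]; exact hx1
      · rw [h]; exact hx2
    rcases hcn with hcn | ⟨j, hj⟩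
    · exfalso
      apply H.sub c hc
      apply hr
      · rw [hcn, flp_flp_zr hne]; left; rfl
      · rw [hcn, flp_flp_zr hne]; right; rfl
    · by_cases hj1 : j = ⟨a, by omega⟩
      · right
        rw [hj1, flp3] at hj
        exact hj ▸ hc
      · by_cases hj2 : j = ⟨a + 1, ha⟩
        · left
          rw [hj2, flp_flp] at hj
          exact hj ▸ hc
        · exfalso
          apply H.sub c hc
          apply hr
          · rw [hj, flp_ne _ (Ne.symm hj1), flp_flp_zr hne]; left; rfl
          · rw [hj, flp_ne _ (Ne.symm hj2), flp_flp_zr hne]; right; rfl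
  have hno : ∀ i j : Fin n, i ≠ j → flp (zr n) i ∈ C → flp (zr n) j ∈ C → False := by
    intro i j hij h1 h2
    apply no_two H h1 hij
    rw [flp_flp]
    exact h2
  rcases hun 0 (by omega) with h1 | h1 <;> rcases hun 3 (by omega) with h2 | h2
  · exact hno _ _ (by simp [Fin.ext_iff]) h1 h2
  · exact hno _ _ (by simp [Fin.ext_iff]) h1 h2
  · exact hno _ _ (by simp [Fin.ext_iff]) h1 h2
  · exact hno _ _ (by simp [Fin.ext_iff]) h1 h2

/-! ### `n` odd, `n < 2s`: everything is covered -/

theorem cov_all (H : Code n s C) (hn : Odd n) (h2s : n < 2 * s) (x : Fin n → Bool) :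
    Cov C x := by
  by_cases hx : Run s x
  · obtain ⟨a0, ha0, hr0⟩ := id hx
    have hs0 : 0 < n := by
      obtain ⟨b, hb⟩ := hn
      omega
    have hm : s - 1 < n := by omega
    have e : x = flp (flp x ⟨s - 1, hm⟩) ⟨s - 1, hm⟩ := (flp_flp _ _).symm
    have hx1 : x ⟨s - 1, hm⟩ = true :=
      hr0 _ (by show a0 ≤ s - 1; omega) (by show s - 1 < a0 + s; omega)
    have hy0 : flp x ⟨s - 1, hm⟩ ⟨s - 1, hm⟩ = false := by rw [flp_same, hx1]; rfl
    have crit : ∀ y : Fin n → Bool, y ⟨s - 1, hm⟩ = false → ¬ Run s y := by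
      rintro y hy ⟨a, ha, hr⟩
      have := hr ⟨s - 1, hm⟩ (by show a ≤ s - 1; omega) (by show s - 1 < a + s; omega)
      rw [hy] at this
      exact absurd this (by simp)
    rw [e]
    apply odd_case H hn (crit _ hy0)
    intro i hi
    apply cov_of H
    apply crit
    rw [flp_ne _ (Ne.symm hi)]
    exact hy0
  · exact cov_of H hx

theorem structure_thm (H : Code n s C) (hs : 2 ≤ s) (hn : 3 ≤ n) :
    Odd n ∧ n < 2 * s ∧ ∀ x, Cov C x := by
  have hodd : Odd n := by
    rw [← Nat.not_even_iff_odd]
    intro he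
    by_cases h3 : 3 ≤ s
    · exact even_false3 H h3 he (by omega)
    · have : s = 2 := by omega
      subst this
      exact even_false2 H he hn
  have hlt : n < 2 * s := by
    by_contra hge
    by_cases h3 : 3 ≤ s
    · exact odd_false3 H h3 hodd (by omega)
    · have : s = 2 := by omega
      subst this
      obtain ⟨b, hb⟩ := hodd
      exact odd_false2 H ⟨b, hb⟩ (by omega)
  exact ⟨hodd, hlt, cov_all H hodd hlt⟩

/-! ### Counting -/

theorem count (H : Code n s C) (hall : ∀ x, Cov C x) : (n + 1) ∣ 2 ^ n := by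
  classical
  have e : C × Option (Fin n) ≃ (Fin n → Bool) := by
    refine Equiv.ofBijective (fun p => p.2.elim p.1.1 (fun i => flp p.1.1 i)) ⟨?_, ?_⟩
    · rintro ⟨⟨c, hc⟩, o⟩ ⟨⟨c', hc'⟩, o'⟩ h
      simp only at h
      have near : ∀ (c : Fin n → Bool) (o : Option (Fin n)),
          Near c (o.elim c (fun i => flp c i)) := by
        intro c o
        cases o with
        | none => exact Or.inl rfl
        | some i => exact Or.inr ⟨i, (flp_flp c i).symm⟩
      have h1 := near c o
      have h2 := near c' o'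
      rw [h] at h1
      have h3 := uniqG H _ _ _ hc hc' h1 h2
      subst h3
      have h4 : o = o' := by
        cases o with
        | none =>
          cases o' with
          | none => rfl
          | some j => exact absurd h.symm (flp_ne_self c j)
        | some i =>
          cases o' with
          | none => exact absurd h (flp_ne_self c i)
          | some j => exact congrArg some (flp_inj c h)
      rw [h4]
    · intro x
      obtain ⟨c, hc, hcn⟩ := hall x
      rcases hcn with rfl | ⟨i, rfl⟩
      · exact ⟨⟨⟨c, hc⟩, none⟩, rfl⟩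
      · exact ⟨⟨⟨_, hc⟩, some i⟩, flp_flp x i⟩
  have h1 := Fintype.card_congr e
  rw [Fintype.card_prod, Fintype.card_option, Fintype.card_fin, Fintype.card_fun,
    Fintype.card_bool, Fintype.card_fin] at h1
  exact ⟨_, by rw [← h1, mul_comm]⟩

/-- **Main theorem.** For `n ≥ 3` and `s ≥ 2`, every perfect code `C` of `Γ_n(1^s)` is a perfect
code of the hypercube `Q_n`, and `n = 2^p - 1` for some `p`; moreover `n < 2s`. -/
theorem result (n s : ℕ) (hn : 3 ≤ n) (hs : 2 ≤ s) (C : Set {x : Fin n → Bool | ¬ Run s x})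
    (hC : IsPerfectCode (Gam n s) C) :
    (∃ p : ℕ, n = 2 ^ p - 1) ∧ IsPerfectCode (Q n) (Subtype.val '' C) ∧ n < 2 * s := by
  have near_iff : ∀ c x : Fin n → Bool, (x = c ∨ (Q n).Adj c x) ↔ Near c x := by
    intro c x
    rw [adj_iff]
    constructor
    · rintro (h | ⟨i, h⟩)
      · exact Or.inl h.symm
      · exact Or.inr ⟨i, by rw [h, flp_flp]⟩
    · rintro (h | ⟨i, h⟩)
      · exact Or.inl h.symm
      · exact Or.inr ⟨i, by rw [h, flp_flp]⟩
  have H : Code n s (Subtype.val '' C) := by
    refine ⟨?_, ?_, ?_⟩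
    · rintro c ⟨c', _, rfl⟩
      exact c'.2
    · intro x hx
      obtain ⟨c, ⟨hc, hcn⟩, _⟩ := hC ⟨x, hx⟩
      refine ⟨c.1, ⟨c, hc, rfl⟩, ?_⟩
      rw [← near_iff]
      rcases hcn with h | h
      · left
        rw [← h]
      · right
        exact h
    · rintro x hx _ ⟨c, hc, rfl⟩ _ ⟨c', hc', rfl⟩ h h'
      rw [← near_iff] at h h'
      have key : ∀ c : {x : Fin n → Bool | ¬ Run s x}, (x = c.1 ∨ (Q n).Adj c.1 x) →
          ((⟨x, hx⟩ : {x : Fin n → Bool | ¬ Run s x}) = c ∨ (Gam n s).Adj c ⟨x, hx⟩) := by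
        rintro c (h | h)
        · exact Or.inl (Subtype.ext h)
        · exact Or.inr h
      have := (hC ⟨x, hx⟩).unique ⟨hc, key c h⟩ ⟨hc', key c' h'⟩
      rw [this]
  obtain ⟨hodd, hlt, hall⟩ := structure_thm H hs hn
  refine ⟨?_, ?_, hlt⟩
  · obtain ⟨k, _, hk⟩ := (Nat.dvd_prime_pow Nat.prime_two).1 (count H hall)
    exact ⟨k, by omega⟩
  · intro x
    obtain ⟨c, hc, hcn⟩ := hall x
    refine ⟨c, ⟨hc, (near_iff c x).2 hcn⟩, ?_⟩
    rintro c' ⟨hc', hcn'⟩
    exact uniqG H x c' c hc' hc ((near_iff c' x).1 hcn') hcn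

end Pool.Agent.Results.MP_87e4a0_co.FibonacciCubeCodes
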